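import Mathlib

/-!
# Extremal slices of Weierstrass graphs (MP_60983f_an, Q1)

For every Lipschitz `g` on the circle there is a non-vertical direction `θ` for which the extremal
slice of the graph of `W_g` at height `M_θ` is a single point, hence has Hausdorff dimension
`0 ≠ 1 - α`. So no `g` has the property of Q1, and the property is not prevalent.
-/

set_option autoImplicit false

open Set MeasureTheory

namespace Pool.Agent.Results.MP_60983f_an.ExtremalSlices

/-- the circle `ℝ/ℤ`. -/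
abbrev Circ : Type := AddCircle (1 : ℝ)

/-- The real vector space of Lipschitz functions on the circle. -/
def lipSub : Submodule ℝ (Circ → ℝ) where
  carrier := {g | ∃ K : NNReal, LipschitzWith K g}
  add_mem' := by
    rintro a b ⟨K, hK⟩ ⟨L, hL⟩
    exact ⟨K + L, hK.add hL⟩
  zero_mem' := ⟨0, LipschitzWith.const (0 : ℝ)⟩
  smul_mem' := by
    rintro c a ⟨K, hK⟩
    refine ⟨‖c‖₊ * K, ?_⟩
    have := (lipschitzWith_smul c).comp hK
    exact this

/-- `Lip(S¹)`. -/
def LipSpace : Type := lipSub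

noncomputable instance : AddCommGroup LipSpace := inferInstanceAs (AddCommGroup lipSub)

noncomputable instance : Module ℝ LipSpace := inferInstanceAs (Module ℝ lipSub)

/-- the underlying function of an element of `Lip(S¹)`. -/
def LipSpace.fn (g : LipSpace) : Circ → ℝ := fun x => Subtype.val (p := fun g => g ∈ lipSub) g x

lemma LipSpace.lip (g : LipSpace) : ∃ K : NNReal, LipschitzWith K g.fn :=
  Subtype.property (p := fun g => g ∈ lipSub) g

lemma LipSpace.fn_add (g h : LipSpace) (x : Circ) : (g + h).fn x = g.fn x + h.fn x := rfl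

lemma LipSpace.fn_neg (g : LipSpace) (x : Circ) : (-g).fn x = -g.fn x := rfl

lemma LipSpace.fn_zero (x : Circ) : (0 : LipSpace).fn x = 0 := rfl

lemma LipSpace.bdd1 (g : LipSpace) : BddAbove (range fun x => |g.fn x|) := by
  obtain ⟨K, hK⟩ := g.lip
  exact (isCompact_range hK.continuous.abs).bddAbove

lemma LipSpace.bdd2 (g : LipSpace) :
    BddAbove (range fun p : Circ × Circ => |g.fn p.1 - g.fn p.2| / dist p.1 p.2) := by
  obtain ⟨K, hK⟩ := g.lip
  refine ⟨K, ?_⟩
  rintro _ ⟨p, rfl⟩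
  simp only
  have h := hK.dist_le_mul p.1 p.2
  rw [Real.dist_eq] at h
  rcases (dist_nonneg (x := p.1) (y := p.2)).lt_or_eq with h0 | h0
  · rw [div_le_iff₀ h0]; exact h
  · rw [← h0, div_zero]; exact K.2

/-- the Lipschitz norm `sup |g| + sup_{x ≠ y} |g(x) - g(y)|/|x - y|` (the quotient is read as `0`
for `x = y`). -/
noncomputable def lipNorm : AddGroupNorm LipSpace where
  toFun g := (⨆ x : Circ, |g.fn x|) + ⨆ p : Circ × Circ, |g.fn p.1 - g.fn p.2| / dist p.1 p.2
  map_zero' := by
    simp [LipSpace.fn_zero]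
  add_le' g h := by
    have h1 : (⨆ x : Circ, |(g + h).fn x|) ≤ (⨆ x : Circ, |g.fn x|) + ⨆ x : Circ, |h.fn x| := by
      refine ciSup_le fun x => ?_
      rw [LipSpace.fn_add]
      exact (abs_add_le _ _).trans (add_le_add (le_ciSup g.bdd1 x) (le_ciSup h.bdd1 x))
    have h2 : (⨆ p : Circ × Circ, |(g + h).fn p.1 - (g + h).fn p.2| / dist p.1 p.2) ≤
        (⨆ p : Circ × Circ, |g.fn p.1 - g.fn p.2| / dist p.1 p.2) +
          ⨆ p : Circ × Circ, |h.fn p.1 - h.fn p.2| / dist p.1 p.2 := by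
      refine ciSup_le fun p => ?_
      rw [LipSpace.fn_add, LipSpace.fn_add]
      refine le_trans ?_ (add_le_add (le_ciSup g.bdd2 p) (le_ciSup h.bdd2 p))
      rw [← add_div]
      refine div_le_div_of_nonneg_right ?_ dist_nonneg
      refine le_trans (le_of_eq ?_) (abs_add_le _ _)
      congr 1
      ring
    linarith
  neg' g := by
    have h1 : ∀ x, |(-g).fn x| = |g.fn x| := fun x => by rw [LipSpace.fn_neg, abs_neg]
    have h2 : ∀ p : Circ × Circ, |(-g).fn p.1 - (-g).fn p.2| = |g.fn p.1 - g.fn p.2| := by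
      intro p
      rw [LipSpace.fn_neg, LipSpace.fn_neg, ← abs_neg]
      congr 1
      ring
    simp only [h1, h2]
  eq_zero_of_map_eq_zero' g hg := by
    have h2 : 0 ≤ ⨆ p : Circ × Circ, |g.fn p.1 - g.fn p.2| / dist p.1 p.2 :=
      Real.iSup_nonneg fun p => div_nonneg (abs_nonneg _) dist_nonneg
    have h1 : ∀ x, |g.fn x| ≤ 0 := fun x => by
      have := le_ciSup g.bdd1 x
      linarith
    apply Subtype.ext
    funext x
    exact abs_nonpos_iff.mp (h1 x)

noncomputable instance : NormedAddCommGroup LipSpace := lipNorm.toNormedAddCommGroup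

/-- The norm of `LipSpace` is the one of the problem. -/
lemma LipSpace.norm_def (g : LipSpace) : ‖g‖ =
    (⨆ x : Circ, |g.fn x|) + ⨆ p : Circ × Circ, |g.fn p.1 - g.fn p.2| / dist p.1 p.2 := rfl

noncomputable instance : MeasurableSpace LipSpace := borel LipSpace

/-- Shy sets (for the Borel sigma-algebra). -/
def Shy {X : Type*} [AddCommGroup X] [TopologicalSpace X] [MeasurableSpace X] (A : Set X) : Prop :=
  ∃ (μ : Measure X) (B : Set X), MeasurableSet B ∧ A ⊆ B ∧
    (∃ K : Set X, IsCompact K ∧ 0 < μ K ∧ μ K < ⊤) ∧ ∀ x : X, μ ((fun y => x + y) '' B) = 0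

/-- Prevalent sets. -/
def Prevalent {X : Type*} [AddCommGroup X] [TopologicalSpace X] [MeasurableSpace X] (A : Set X) :
    Prop := Shy Aᶜ

/-- `W_g(x) = ∑ b^{-αk} g(b^k x)`. -/
noncomputable def W (b : ℕ) (α : ℝ) (g : Circ → ℝ) (x : ℝ) : ℝ :=
  ∑' k : ℕ, (b : ℝ) ^ (-(α * k)) * g (((b : ℝ) ^ k * x : ℝ) : Circ)

/-- the graph of `W_g` over `[0,1]`, in the Euclidean plane. -/
noncomputable def graph (b : ℕ) (α : ℝ) (g : Circ → ℝ) : Set (EuclideanSpace ℝ (Fin 2)) :=
  (fun x : ℝ => !₂[x, W b α g x]) '' Icc (0 : ℝ) 1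

/-- `P_θ(x,y) = x cos θ + y sin θ`. -/
noncomputable def P (θ : ℝ) (p : EuclideanSpace ℝ (Fin 2)) : ℝ :=
  p 0 * Real.cos θ + p 1 * Real.sin θ

/-- `m_θ`, the minimum of `P_θ` on the graph. -/
noncomputable def mθ (b : ℕ) (α : ℝ) (g : Circ → ℝ) (θ : ℝ) : ℝ := sInf (P θ '' graph b α g)

/-- `M_θ`, the maximum of `P_θ` on the graph. -/
noncomputable def Mθ (b : ℕ) (α : ℝ) (g : Circ → ℝ) (θ : ℝ) : ℝ := sSup (P θ '' graph b α g)

/-- the slice in direction `θ` at height `t`. -/
def slice (b : ℕ) (α : ℝ) (g : Circ → ℝ) (θ t : ℝ) : Set (EuclideanSpace ℝ (Fin 2)) :=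
  graph b α g ∩ P θ ⁻¹' {t}

/-- The property of Q1: all nonempty slices in non-vertical directions have dimension `1 - α`. -/
def Good (b : ℕ) (α : ℝ) (g : LipSpace) : Prop :=
  ∀ θ ∈ Ico (0 : ℝ) (2 * Real.pi), Real.sin θ ≠ 0 →
    ∀ t ∈ Icc (mθ b α g.fn θ) (Mθ b α g.fn θ),
      dimH (slice b α g.fn θ t) = ENNReal.ofReal (1 - α)

/-- For every function `w` continuous on `[0,1]` there is `e > 0` such that `x + e w(x)` has a unique
maximum point on `[0,1]`. -/
lemma unique_max (w : ℝ → ℝ) (hw : ContinuousOn w (Icc 0 1)) :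
    ∃ e : ℝ, 0 < e ∧ ∃ x0 ∈ Icc (0 : ℝ) 1, ∀ x ∈ Icc (0 : ℝ) 1, x ≠ x0 →
      x + e * w x < x0 + e * w x0 := by
  have hex : ∀ e : ℝ, ∃ a ∈ Icc (0 : ℝ) 1, ∀ x ∈ Icc (0 : ℝ) 1, x + e * w x ≤ a + e * w a := by
    intro e
    obtain ⟨a, ha, hmax⟩ := isCompact_Icc.exists_isMaxOn (nonempty_Icc.mpr zero_le_one)
      (continuousOn_id.add (continuousOn_const.mul hw) : ContinuousOn (fun x => x + e * w x)
        (Icc (0 : ℝ) 1))
    exact ⟨a, ha, fun x hx => hmax hx⟩
  choose a ha hmax using hex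
  obtain ⟨B, hB⟩ := isCompact_Icc.exists_bound_of_continuousOn hw
  have hB0 : 0 ≤ B := (norm_nonneg _).trans (hB 0 ⟨le_rfl, zero_le_one⟩)
  set m : ℝ → ℝ := fun e => a e + e * w (a e) with hm
  have hlip : LipschitzWith (Real.toNNReal B) m := by
    apply LipschitzWith.of_le_add_mul'
    intro e e'
    have h1 := hmax e' (a e) (ha e)
    have h2 : (e - e') * w (a e) ≤ B * dist e e' := by
      rw [Real.dist_eq]
      have h3 := hB (a e) (ha e)
      rw [Real.norm_eq_abs] at h3
      calc (e - e') * w (a e) ≤ |(e - e') * w (a e)| := le_abs_self _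
        _ = |w (a e)| * |e - e'| := by rw [abs_mul, mul_comm]
        _ ≤ B * |e - e'| := mul_le_mul_of_nonneg_right h3 (abs_nonneg _)
    simp only [hm]
    linarith
  have hae := hlip.ae_differentiableAt_real
  obtain ⟨e, he, hde⟩ := Measure.exists_mem_of_measure_ne_zero_of_ae (μ := volume) (s := Ioo (0 : ℝ) 1)
    (by simp) (ae_restrict_of_ae hae)
  have hder : ∀ x ∈ Icc (0 : ℝ) 1, x + e * w x = m e → w x = deriv m e := by
    intro x hx hxe
    have hmin : IsLocalMin (fun e' => m e' - (x + e' * w x)) e := by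
      refine Filter.Eventually.of_forall fun e' => ?_
      have := hmax e' x hx
      simp only [hm] at hxe ⊢
      linarith
    have h1 : HasDerivAt (fun e' => m e' - (x + e' * w x)) (deriv m e - (1 * w x)) e :=
      hde.hasDerivAt.sub (((hasDerivAt_id e).mul_const (w x)).const_add x)
    have h2 := hmin.hasDerivAt_eq_zero h1
    linarith
  refine ⟨e, he.1, a e, ha e, fun x hx hne => ?_⟩
  refine lt_of_le_of_ne (hmax e x hx) fun heq => hne ?_
  have h1 := hder x hx heq
  have h2 := hder (a e) (ha e) rfl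
  rw [h1, ← h2] at heq
  linarith

lemma W_cont {b : ℕ} (hb : 2 ≤ b) {α : ℝ} (h0 : 0 < α) (g : LipSpace) :
    Continuous (W b α g.fn) := by
  obtain ⟨K, hK⟩ := g.lip
  obtain ⟨B, hB⟩ := g.bdd1
  have hb1 : (1 : ℝ) < b := by exact_mod_cast (by omega : 1 < b)
  have hb0 : (0 : ℝ) < b := by linarith
  have hr : ∀ k : ℕ, (b : ℝ) ^ (-(α * k)) = ((b : ℝ) ^ (-α)) ^ k := by
    intro k
    rw [← Real.rpow_natCast, ← Real.rpow_mul hb0.le]
    ring_nf
  have hlt : (b : ℝ) ^ (-α) < 1 := Real.rpow_lt_one_of_one_lt_of_neg hb1 (by linarith)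
  have hpos : 0 < (b : ℝ) ^ (-α) := Real.rpow_pos_of_pos hb0 _
  unfold W
  refine continuous_tsum (u := fun k : ℕ => ((b : ℝ) ^ (-α)) ^ k * B) ?_ ?_ ?_
  · intro k
    refine continuous_const.mul (hK.continuous.comp ?_)
    exact (AddCircle.continuous_mk' (1 : ℝ)).comp (continuous_const.mul continuous_id)
  · exact (summable_geometric_of_lt_one hpos.le hlt).mul_right B
  · intro k x
    rw [hr, norm_mul, Real.norm_eq_abs, Real.norm_eq_abs, abs_of_pos (pow_pos hpos k)]
    exact mul_le_mul_of_nonneg_left (hB ⟨_, rfl⟩) (pow_pos hpos k).le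

/-- **Theorem.** Let `b ≥ 2` and `0 < α < 1`. For every Lipschitz `g` on the circle there is a
non-vertical direction `θ` for which the extremal slice at height `M_θ` is a single point and has
Hausdorff dimension different from `1 - α`. Consequently no `g` has the property of Q1, and the set
of the `g` that are constant or have the property is not prevalent. -/
theorem result (b : ℕ) (hb : 2 ≤ b) (α : ℝ) (h0 : 0 < α) (h1 : α < 1) :
    (∀ g : LipSpace, ∃ θ ∈ Ico (0 : ℝ) (2 * Real.pi), Real.sin θ ≠ 0 ∧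
      Mθ b α g.fn θ ∈ Icc (mθ b α g.fn θ) (Mθ b α g.fn θ) ∧
      (∃ p, slice b α g.fn θ (Mθ b α g.fn θ) = {p}) ∧
      dimH (slice b α g.fn θ (Mθ b α g.fn θ)) ≠ ENNReal.ofReal (1 - α)) ∧
    (∀ g : LipSpace, ¬ Good b α g) ∧
    ¬ Prevalent {g : LipSpace | (∃ c : ℝ, ∀ x, g.fn x = c) ∨ Good b α g} := by
  have main : ∀ g : LipSpace, ∃ θ ∈ Ico (0 : ℝ) (2 * Real.pi), Real.sin θ ≠ 0 ∧
      Mθ b α g.fn θ ∈ Icc (mθ b α g.fn θ) (Mθ b α g.fn θ) ∧
      (∃ p, slice b α g.fn θ (Mθ b α g.fn θ) = {p}) ∧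
      dimH (slice b α g.fn θ (Mθ b α g.fn θ)) ≠ ENNReal.ofReal (1 - α) := by
    intro g
    obtain ⟨e, he, x0, hx0, hmax⟩ := unique_max (W b α g.fn) (W_cont hb h0 g).continuousOn
    have hθ0 : 0 < Real.arctan e := by
      rw [← Real.arctan_zero]; exact Real.arctan_strictMono he
    have hθ1 : Real.arctan e < Real.pi / 2 := Real.arctan_lt_pi_div_two e
    have hcos : 0 < Real.cos (Real.arctan e) := Real.cos_arctan_pos e
    have hsin : Real.sin (Real.arctan e) = Real.cos (Real.arctan e) * e := by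
      have := Real.tan_arctan e
      rw [Real.tan_eq_sin_div_cos, div_eq_iff hcos.ne'] at this
      rw [this, mul_comm]
    have hsinpos : 0 < Real.sin (Real.arctan e) :=
      Real.sin_pos_of_pos_of_lt_pi hθ0 (by linarith [Real.pi_pos])
    have hP : ∀ x : ℝ, P (Real.arctan e) !₂[x, W b α g.fn x] =
        Real.cos (Real.arctan e) * (x + e * W b α g.fn x) := by
      intro x
      unfold P
      rw [hsin]
      simp
      ring
    have hgreat : IsGreatest (P (Real.arctan e) '' graph b α g.fn)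
        (Real.cos (Real.arctan e) * (x0 + e * W b α g.fn x0)) := by
      constructor
      · exact ⟨_, ⟨x0, hx0, rfl⟩, hP x0⟩
      · rintro _ ⟨_, ⟨x, hx, rfl⟩, rfl⟩
        simp only
        rw [hP]
        apply mul_le_mul_of_nonneg_left _ hcos.le
        by_cases hxx : x = x0
        · rw [hxx]
        · exact (hmax x hx hxx).le
    have hM : Mθ b α g.fn (Real.arctan e) =
        Real.cos (Real.arctan e) * (x0 + e * W b α g.fn x0) := hgreat.csSup_eq
    have hslice : slice b α g.fn (Real.arctan e) (Mθ b α g.fn (Real.arctan e)) =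
        {!₂[x0, W b α g.fn x0]} := by
      ext p
      constructor
      · rintro ⟨⟨x, hx, rfl⟩, hp⟩
        simp only [mem_preimage, mem_singleton_iff] at hp ⊢
        rw [hP, hM] at hp
        have hp' := mul_left_cancel₀ hcos.ne' hp
        by_cases hxx : x = x0
        · rw [hxx]
        · exact absurd hp' (hmax x hx hxx).ne
      · rintro rfl
        refine ⟨⟨x0, hx0, rfl⟩, ?_⟩
        simp only [mem_preimage, mem_singleton_iff]
        rw [hP, hM]
    refine ⟨Real.arctan e, ⟨hθ0.le, by linarith [Real.pi_pos]⟩, hsinpos.ne', ⟨?_, le_rfl⟩,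
      ⟨_, hslice⟩, ?_⟩
    · -- `m_θ ≤ M_θ`
      have hcomp : IsCompact (P (Real.arctan e) '' graph b α g.fn) := by
        have : P (Real.arctan e) '' graph b α g.fn =
            (fun x => Real.cos (Real.arctan e) * (x + e * W b α g.fn x)) '' Icc 0 1 := by
          unfold graph
          rw [image_image]
          exact image_congr fun x _ => hP x
        rw [this]
        apply isCompact_Icc.image
        exact continuous_const.mul (continuous_id.add (continuous_const.mul (W_cont hb h0 g)))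
      rw [hM]
      exact csInf_le hcomp.bddBelow hgreat.1
    · rw [hslice, dimH_singleton]
      have : 0 < ENNReal.ofReal (1 - α) := ENNReal.ofReal_pos.mpr (by linarith)
      exact this.ne
  have hbad : ∀ g : LipSpace, ¬ Good b α g := by
    intro g hg
    obtain ⟨θ, hθ, hs, hM, -, hd⟩ := main g
    exact hd (hg θ hθ hs _ hM)
  refine ⟨main, hbad, ?_⟩
  rintro ⟨μ, B, hB, hAB, ⟨K, hK, hK0, hK1⟩, hμ⟩
  -- a nonconstant Lipschitz function
  obtain ⟨h, hh⟩ : ∃ h : LipSpace, ¬ ∃ c : ℝ, ∀ x, h.fn x = c := by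
    refine ⟨⟨fun x => dist x 0, 1, ?_⟩, ?_⟩
    · simpa using LipschitzWith.dist_left (0 : Circ)
    · rintro ⟨c, hc⟩
      have h1 : dist (0 : Circ) 0 = c := hc 0
      rw [dist_self] at h1
      have h2 : dist (((1 / 2 : ℝ)) : Circ) 0 = c := hc _
      rw [← h1, dist_zero_right] at h2
      have h3 : ‖((1 / 2 : ℝ) : Circ)‖ = 1 / 2 := by
        have := AddCircle.norm_half_period_eq (p := (1 : ℝ))
        simpa using this
      rw [h3] at h2
      norm_num at h2
  have hcov : (univ : Set LipSpace) ⊆ (fun y => (0 : LipSpace) + y) '' B ∪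
      (fun y => h + y) '' B := by
    intro g _
    by_cases hg : ∃ c : ℝ, ∀ x, g.fn x = c
    · right
      refine ⟨-h + g, hAB ?_, add_neg_cancel_left h g⟩
      rintro (hc | hc)
      · apply hh
        obtain ⟨c, hc⟩ := hc
        obtain ⟨c', hc'⟩ := hg
        refine ⟨c' - c, fun x => ?_⟩
        have e1 := hc x
        have e2 := hc' x
        rw [LipSpace.fn_add, LipSpace.fn_neg] at e1
        linarith
      · exact hbad _ hc
    · left
      refine ⟨g, hAB ?_, zero_add _⟩
      rintro (hc | hc)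
      · exact hg hc
      · exact hbad _ hc
  have hu : μ univ = 0 := by
    refine measure_mono_null hcov ?_
    rw [measure_union_null_iff]
    exact ⟨hμ 0, hμ h⟩
  exact hK0.ne' (measure_mono_null (subset_univ K) hu)

end Pool.Agent.Results.MP_60983f_an.ExtremalSlices
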