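import Mathlib

/-!
# Non-extremal slices of Weierstrass graphs (MP_60983f_an, Q2)

For all `b ≥ 2` and `0 < α < 1` there is a nonempty open set `U` of `Lip(S¹)` such that for every
`g` in `U` some non-extremal slice of the graph of `W_g` in a non-vertical direction is a single
point. In particular the property of Q2 (all non-extremal slices in non-vertical directions have
dimension `1 - α`) is not prevalent.

Idea: there is an open set of `g` for which `0` is a point of strict increase of `W_g`; then `1/b` is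
a point of strict increase of `x + e W_g(x)` on the whole of `[0,1]` for small `e > 0`.
-/

set_option autoImplicit false

open Set MeasureTheory

namespace Pool.Agent.Results.MP_60983f_an.InteriorSlices

/-- the circle `ℝ/ℤ`. -/
abbrev Circ : Type := AddCircle (1 : ℝ)

/-- The real vector space of Lipschitz functions on the circle. -/
def lipSub : Submodule ℝ (Circ → ℝ) where
  carrier := {g | ∃ K : NNReal, LipschitzWith K g}
  add_mem' := by
    rintro a b ⟨K, hK⟩ ⟨L, hL⟩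
    exact ⟨K + L, hK.add hL⟩
  zero_mem' := ⟨0, LipschitzWith.const (0 : ℝ)⟩
  smul_mem' := by
    rintro c a ⟨K, hK⟩
    refine ⟨‖c‖₊ * K, ?_⟩
    have := (lipschitzWith_smul c).comp hK
    exact this

/-- `Lip(S¹)`. -/
def LipSpace : Type := lipSub

noncomputable instance : AddCommGroup LipSpace := inferInstanceAs (AddCommGroup lipSub)

noncomputable instance : Module ℝ LipSpace := inferInstanceAs (Module ℝ lipSub)

/-- the underlying function of an element of `Lip(S¹)`. -/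
def LipSpace.fn (g : LipSpace) : Circ → ℝ := fun x => Subtype.val (p := fun g => g ∈ lipSub) g x

lemma LipSpace.lip (g : LipSpace) : ∃ K : NNReal, LipschitzWith K g.fn :=
  Subtype.property (p := fun g => g ∈ lipSub) g

lemma LipSpace.fn_add (g h : LipSpace) (x : Circ) : (g + h).fn x = g.fn x + h.fn x := rfl

lemma LipSpace.fn_neg (g : LipSpace) (x : Circ) : (-g).fn x = -g.fn x := rfl

lemma LipSpace.fn_zero (x : Circ) : (0 : LipSpace).fn x = 0 := rfl

lemma LipSpace.bdd1 (g : LipSpace) : BddAbove (range fun x => |g.fn x|) := by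
  obtain ⟨K, hK⟩ := g.lip
  exact (isCompact_range hK.continuous.abs).bddAbove

lemma LipSpace.bdd2 (g : LipSpace) :
    BddAbove (range fun p : Circ × Circ => |g.fn p.1 - g.fn p.2| / dist p.1 p.2) := by
  obtain ⟨K, hK⟩ := g.lip
  refine ⟨K, ?_⟩
  rintro _ ⟨p, rfl⟩
  simp only
  have h := hK.dist_le_mul p.1 p.2
  rw [Real.dist_eq] at h
  rcases (dist_nonneg (x := p.1) (y := p.2)).lt_or_eq with h0 | h0
  · rw [div_le_iff₀ h0]; exact h
  · rw [← h0, div_zero]; exact K.2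

/-- the Lipschitz norm `sup |g| + sup_{x ≠ y} |g(x) - g(y)|/|x - y|` (the quotient is read as `0`
for `x = y`). -/
noncomputable def lipNorm : AddGroupNorm LipSpace where
  toFun g := (⨆ x : Circ, |g.fn x|) + ⨆ p : Circ × Circ, |g.fn p.1 - g.fn p.2| / dist p.1 p.2
  map_zero' := by
    simp [LipSpace.fn_zero]
  add_le' g h := by
    have h1 : (⨆ x : Circ, |(g + h).fn x|) ≤ (⨆ x : Circ, |g.fn x|) + ⨆ x : Circ, |h.fn x| := by
      refine ciSup_le fun x => ?_
      rw [LipSpace.fn_add]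
      exact (abs_add_le _ _).trans (add_le_add (le_ciSup g.bdd1 x) (le_ciSup h.bdd1 x))
    have h2 : (⨆ p : Circ × Circ, |(g + h).fn p.1 - (g + h).fn p.2| / dist p.1 p.2) ≤
        (⨆ p : Circ × Circ, |g.fn p.1 - g.fn p.2| / dist p.1 p.2) +
          ⨆ p : Circ × Circ, |h.fn p.1 - h.fn p.2| / dist p.1 p.2 := by
      refine ciSup_le fun p => ?_
      rw [LipSpace.fn_add, LipSpace.fn_add]
      refine le_trans ?_ (add_le_add (le_ciSup g.bdd2 p) (le_ciSup h.bdd2 p))
      rw [← add_div]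
      refine div_le_div_of_nonneg_right ?_ dist_nonneg
      refine le_trans (le_of_eq ?_) (abs_add_le _ _)
      congr 1
      ring
    linarith
  neg' g := by
    have h1 : ∀ x, |(-g).fn x| = |g.fn x| := fun x => by rw [LipSpace.fn_neg, abs_neg]
    have h2 : ∀ p : Circ × Circ, |(-g).fn p.1 - (-g).fn p.2| = |g.fn p.1 - g.fn p.2| := by
      intro p
      rw [LipSpace.fn_neg, LipSpace.fn_neg, ← abs_neg]
      congr 1
      ring
    simp only [h1, h2]
  eq_zero_of_map_eq_zero' g hg := by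
    have h2 : 0 ≤ ⨆ p : Circ × Circ, |g.fn p.1 - g.fn p.2| / dist p.1 p.2 :=
      Real.iSup_nonneg fun p => div_nonneg (abs_nonneg _) dist_nonneg
    have h1 : ∀ x, |g.fn x| ≤ 0 := fun x => by
      have := le_ciSup g.bdd1 x
      linarith
    apply Subtype.ext
    funext x
    exact abs_nonpos_iff.mp (h1 x)

noncomputable instance : NormedAddCommGroup LipSpace := lipNorm.toNormedAddCommGroup

/-- The norm of `LipSpace` is the one of the problem. -/
lemma LipSpace.norm_def (g : LipSpace) : ‖g‖ =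
    (⨆ x : Circ, |g.fn x|) + ⨆ p : Circ × Circ, |g.fn p.1 - g.fn p.2| / dist p.1 p.2 := rfl

noncomputable instance : MeasurableSpace LipSpace := borel LipSpace

/-- Shy sets (for the Borel sigma-algebra). -/
def Shy {X : Type*} [AddCommGroup X] [TopologicalSpace X] [MeasurableSpace X] (A : Set X) : Prop :=
  ∃ (μ : Measure X) (B : Set X), MeasurableSet B ∧ A ⊆ B ∧
    (∃ K : Set X, IsCompact K ∧ 0 < μ K ∧ μ K < ⊤) ∧ ∀ x : X, μ ((fun y => x + y) '' B) = 0

/-- Prevalent sets. -/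
def Prevalent {X : Type*} [AddCommGroup X] [TopologicalSpace X] [MeasurableSpace X] (A : Set X) :
    Prop := Shy Aᶜ

/-- `W_g(x) = ∑ b^{-αk} g(b^k x)`. -/
noncomputable def W (b : ℕ) (α : ℝ) (g : Circ → ℝ) (x : ℝ) : ℝ :=
  ∑' k : ℕ, (b : ℝ) ^ (-(α * k)) * g (((b : ℝ) ^ k * x : ℝ) : Circ)

/-- the graph of `W_g` over `[0,1]`, in the Euclidean plane. -/
noncomputable def graph (b : ℕ) (α : ℝ) (g : Circ → ℝ) : Set (EuclideanSpace ℝ (Fin 2)) :=
  (fun x : ℝ => !₂[x, W b α g x]) '' Icc (0 : ℝ) 1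

/-- `P_θ(x,y) = x cos θ + y sin θ`. -/
noncomputable def P (θ : ℝ) (p : EuclideanSpace ℝ (Fin 2)) : ℝ :=
  p 0 * Real.cos θ + p 1 * Real.sin θ

/-- `m_θ`, the minimum of `P_θ` on the graph. -/
noncomputable def mθ (b : ℕ) (α : ℝ) (g : Circ → ℝ) (θ : ℝ) : ℝ := sInf (P θ '' graph b α g)

/-- `M_θ`, the maximum of `P_θ` on the graph. -/
noncomputable def Mθ (b : ℕ) (α : ℝ) (g : Circ → ℝ) (θ : ℝ) : ℝ := sSup (P θ '' graph b α g)

/-- the slice in direction `θ` at height `t`. -/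
def slice (b : ℕ) (α : ℝ) (g : Circ → ℝ) (θ t : ℝ) : Set (EuclideanSpace ℝ (Fin 2)) :=
  graph b α g ∩ P θ ⁻¹' {t}


/-- The property of Q2: all non-extremal slices in non-vertical directions have dimension
`1 - α`. -/
def Good2 (b : ℕ) (α : ℝ) (g : LipSpace) : Prop :=
  ∀ θ ∈ Ico (0 : ℝ) (2 * Real.pi), Real.sin θ ≠ 0 →
    ∀ t ∈ Ioo (mθ b α g.fn θ) (Mθ b α g.fn θ),
      dimH (slice b α g.fn θ t) = ENNReal.ofReal (1 - α)

lemma W_cont {b : ℕ} (hb : 2 ≤ b) {α : ℝ} (h0 : 0 < α) (g : LipSpace) :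
    Continuous (W b α g.fn) := by
  obtain ⟨K, hK⟩ := g.lip
  obtain ⟨B, hB⟩ := g.bdd1
  have hb1 : (1 : ℝ) < b := by exact_mod_cast (by omega : 1 < b)
  have hb0 : (0 : ℝ) < b := by linarith
  have hr : ∀ k : ℕ, (b : ℝ) ^ (-(α * k)) = ((b : ℝ) ^ (-α)) ^ k := by
    intro k
    rw [← Real.rpow_natCast, ← Real.rpow_mul hb0.le]
    ring_nf
  have hlt : (b : ℝ) ^ (-α) < 1 := Real.rpow_lt_one_of_one_lt_of_neg hb1 (by linarith)
  have hpos : 0 < (b : ℝ) ^ (-α) := Real.rpow_pos_of_pos hb0 _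
  unfold W
  refine continuous_tsum (u := fun k : ℕ => ((b : ℝ) ^ (-α)) ^ k * B) ?_ ?_ ?_
  · intro k
    refine continuous_const.mul (hK.continuous.comp ?_)
    exact (AddCircle.continuous_mk' (1 : ℝ)).comp (continuous_const.mul continuous_id)
  · exact (summable_geometric_of_lt_one hpos.le hlt).mul_right B
  · intro k x
    rw [hr, norm_mul, Real.norm_eq_abs, Real.norm_eq_abs, abs_of_pos (pow_pos hpos k)]
    exact mul_le_mul_of_nonneg_left (hB ⟨_, rfl⟩) (pow_pos hpos k).le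


section model

/-- tent function of height and radius `δ` centred at `0`. -/
noncomputable def T (δ : ℝ) (x : Circ) : ℝ := max 0 (δ - ‖x‖)

/-- an odd piecewise linear function on the circle, equal to `x` on `[-δ, δ]`. -/
noncomputable def g0 (δ : ℝ) (x : Circ) : ℝ := T δ (x - (δ : Circ)) - T δ (x + (δ : Circ))

lemma T_nonneg (δ : ℝ) (x : Circ) : 0 ≤ T δ x := le_max_left _ _

lemma T_le {δ : ℝ} (hδ : 0 ≤ δ) (x : Circ) : T δ x ≤ δ :=
  max_le hδ (by linarith [norm_nonneg x])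

lemma T_neg (δ : ℝ) (x : Circ) : T δ (-x) = T δ x := by
  unfold T; rw [norm_neg]

lemma T_lip (δ : ℝ) (x y : Circ) : |T δ x - T δ y| ≤ dist x y := by
  unfold T
  rw [max_comm 0, max_comm 0]
  refine (abs_max_sub_max_le_abs _ _ _).trans ?_
  have : δ - ‖x‖ - (δ - ‖y‖) = -(‖x‖ - ‖y‖) := by ring
  rw [this, abs_neg, dist_eq_norm]
  exact abs_norm_sub_norm_le x y

lemma g0_neg (δ : ℝ) (x : Circ) : g0 δ (-x) = -g0 δ x := by
  unfold g0
  have e1 : -x - (δ : Circ) = -(x + (δ : Circ)) := by abel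
  have e2 : -x + (δ : Circ) = -(x - (δ : Circ)) := by abel
  rw [e1, e2, T_neg, T_neg]
  ring

lemma g0_lip (δ : ℝ) : LipschitzWith 2 (g0 δ) := by
  refine LipschitzWith.of_dist_le_mul fun x y => ?_
  have h1 := T_lip δ (x - (δ : Circ)) (y - (δ : Circ))
  have h2 := T_lip δ (x + (δ : Circ)) (y + (δ : Circ))
  rw [dist_sub_right] at h1
  rw [dist_add_right] at h2
  rw [Real.dist_eq]
  unfold g0
  have e : T δ (x - (δ : Circ)) - T δ (x + (δ : Circ)) - (T δ (y - (δ : Circ)) -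
      T δ (y + (δ : Circ))) = (T δ (x - (δ : Circ)) - T δ (y - (δ : Circ))) -
      (T δ (x + (δ : Circ)) - T δ (y + (δ : Circ))) := by ring
  rw [e]
  refine (abs_sub _ _).trans ?_
  push_cast
  linarith

lemma norm_coe_of {x : ℝ} (hx : |x| ≤ 1 / 2) : ‖(x : Circ)‖ = |x| := by
  rw [AddCircle.norm_coe_eq_abs_iff (1 : ℝ) one_ne_zero]
  simpa using hx

lemma norm_le_half (x : Circ) : ‖x‖ ≤ 1 / 2 := by
  have := AddCircle.norm_le_half_period (1 : ℝ) (x := x) one_ne_zero
  simpa using this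

lemma g0_ge {δ : ℝ} (hδ : 0 ≤ δ) (x : Circ) : -δ ≤ g0 δ x := by
  unfold g0
  have := T_nonneg δ (x - (δ : Circ))
  have := T_le hδ (x + (δ : Circ))
  linarith

lemma g0_nonneg {δ : ℝ} (hδ : 0 ≤ δ) (hδ4 : δ ≤ 1 / 4) {x : ℝ} (hx0 : 0 ≤ x) (hx : x ≤ 1 / 4) :
    0 ≤ g0 δ (x : Circ) := by
  unfold g0
  have h1 := T_nonneg δ ((x : Circ) - (δ : Circ))
  have h2 : T δ ((x : Circ) + (δ : Circ)) = 0 := by
    unfold T
    rw [← AddCircle.coe_add, norm_coe_of (by rw [abs_of_nonneg] <;> linarith),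
      abs_of_nonneg (by linarith)]
    exact max_eq_left (by linarith)
  linarith

lemma g0_eq {δ : ℝ} (hδ : 0 ≤ δ) (hδ4 : δ ≤ 1 / 4) {x : ℝ} (hx0 : 0 ≤ x) (hx : x ≤ δ) :
    g0 δ (x : Circ) = x := by
  unfold g0
  have h2 : T δ ((x : Circ) + (δ : Circ)) = 0 := by
    unfold T
    rw [← AddCircle.coe_add, norm_coe_of (by rw [abs_of_nonneg] <;> linarith),
      abs_of_nonneg (by linarith)]
    exact max_eq_left (by linarith)
  have h1 : T δ ((x : Circ) - (δ : Circ)) = x := by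
    unfold T
    have e : |x - δ| = δ - x := by rw [abs_of_nonpos (by linarith)]; ring
    rw [← AddCircle.coe_sub, norm_coe_of (by rw [e]; linarith), e]
    rw [max_eq_right (by linarith)]
    ring
  rw [h1, h2, sub_zero]

end model

section series

variable {b : ℕ} {α : ℝ} {f : Circ → ℝ} {B : ℝ}

lemma r_pow (hb : 2 ≤ b) (k : ℕ) : (b : ℝ) ^ (-(α * k)) = ((b : ℝ) ^ (-α)) ^ k := by
  have hb0 : (0 : ℝ) < b := by exact_mod_cast (by omega : 0 < b)
  rw [← Real.rpow_natCast, ← Real.rpow_mul hb0.le]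
  ring_nf

lemma r_pos (hb : 2 ≤ b) : 0 < (b : ℝ) ^ (-α) :=
  Real.rpow_pos_of_pos (by exact_mod_cast (by omega : 0 < b)) _

lemma r_lt (hb : 2 ≤ b) (h0 : 0 < α) : (b : ℝ) ^ (-α) < 1 :=
  Real.rpow_lt_one_of_one_lt_of_neg (by exact_mod_cast (by omega : 1 < b)) (by linarith)

lemma W_eq (hb : 2 ≤ b) (x : ℝ) :
    W b α f x = ∑' k : ℕ, ((b : ℝ) ^ (-α)) ^ k * f (((b : ℝ) ^ k * x : ℝ) : Circ) := by
  unfold W
  simp_rw [r_pow hb]

lemma W_summable (hb : 2 ≤ b) (h0 : 0 < α) (hB : ∀ x, |f x| ≤ B) (x : ℝ) :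
    Summable fun k : ℕ => ((b : ℝ) ^ (-α)) ^ k * f (((b : ℝ) ^ k * x : ℝ) : Circ) := by
  refine Summable.of_norm_bounded
    ((summable_geometric_of_lt_one (r_pos hb).le (r_lt hb h0)).mul_right B) fun k => ?_
  rw [norm_mul, Real.norm_eq_abs, Real.norm_eq_abs, abs_of_pos (pow_pos (r_pos hb) k)]
  exact mul_le_mul_of_nonneg_left (hB _) (pow_pos (r_pos hb) k).le

lemma W_func (hb : 2 ≤ b) (h0 : 0 < α) (hB : ∀ x, |f x| ≤ B) (x : ℝ) :
    W b α f x = f (x : Circ) + (b : ℝ) ^ (-α) * W b α f (b * x) := by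
  rw [W_eq hb, W_eq hb, (W_summable hb h0 hB x).tsum_eq_zero_add]
  congr 1
  · simp
  · rw [← tsum_mul_left]
    refine tsum_congr fun k => ?_
    have e : (b : ℝ) ^ (k + 1) * x = (b : ℝ) ^ k * (b * x) := by ring
    rw [e]
    ring

lemma W_period (hb : 2 ≤ b) (x : ℝ) : W b α f (x + 1) = W b α f x := by
  rw [W_eq hb, W_eq hb]
  refine tsum_congr fun k => ?_
  congr 2
  have e : (b : ℝ) ^ k * (x + 1) = (b : ℝ) ^ k * x + ((b ^ k : ℕ) : ℝ) := by push_cast; ring
  have e2 : (((b ^ k : ℕ) : ℝ) : Circ) = 0 := by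
    rw [AddCircle.coe_eq_zero_iff]
    exact ⟨((b ^ k : ℕ) : ℤ), by simp⟩
  rw [e, AddCircle.coe_add, e2, add_zero]

lemma W_bound (hb : 2 ≤ b) (h0 : 0 < α) (hB : ∀ x, |f x| ≤ B) (x : ℝ) :
    |W b α f x| ≤ B * (1 - (b : ℝ) ^ (-α))⁻¹ := by
  have hg := (hasSum_geometric_of_lt_one (r_pos (α := α) hb).le (r_lt hb h0)).mul_left B
  rw [W_eq hb, ← Real.norm_eq_abs]
  refine tsum_of_norm_bounded hg fun k => ?_
  rw [norm_mul, Real.norm_eq_abs, Real.norm_eq_abs, abs_of_pos (pow_pos (r_pos hb) k), mul_comm]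
  exact mul_le_mul_of_nonneg_right (hB _) (pow_pos (r_pos hb) k).le

/-- positivity of the increment at scale `(δ/b, δ]`. -/
lemma inc_base (hb : 2 ≤ b) (h0 : 0 < α) (hB : ∀ x, |f x| ≤ B) {m : ℕ} {δ η : ℝ}
    (hδ : 0 < δ) (hδ4 : (b : ℝ) ^ m * δ ≤ 1 / 4)
    (hm : ((b : ℝ) ^ (-α)) ^ (m + 1) * (1 - (b : ℝ) ^ (-α))⁻¹ ≤ 1 / (4 * b)) (hη0 : 0 ≤ η)
    (hη : η * (δ / b + (1 - (b : ℝ) ^ (-α))⁻¹) ≤ δ / (8 * b))
    (hf : ∀ x, |f x - f 0 - g0 δ x| ≤ η * ‖x‖) {h : ℝ} (hh : δ / b < h) (hhδ : h ≤ δ) :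
    W b α f 0 < W b α f h := by
  have hb1 : (1 : ℝ) < b := by exact_mod_cast (by omega : 1 < b)
  have hb0 : (0 : ℝ) < b := by linarith
  have hr0 := r_pos (α := α) hb
  have hr1 := r_lt hb h0
  set r := (b : ℝ) ^ (-α) with hr
  have hbm : (1 : ℝ) ≤ (b : ℝ) ^ m := one_le_pow₀ hb1.le
  have hδ' : δ ≤ 1 / 4 := by nlinarith
  have hδb : 0 < δ / b := by positivity
  have hh0 : 0 < h := by linarith
  set d : ℕ → ℝ := fun k => f (((b : ℝ) ^ k * h : ℝ) : Circ) - f 0 with hd
  have hdk : ∀ k, g0 δ (((b : ℝ) ^ k * h : ℝ) : Circ) - η / 2 ≤ d k := by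
    intro k
    have h1 := (abs_le.mp (hf (((b : ℝ) ^ k * h : ℝ) : Circ))).1
    have h2 := norm_le_half (((b : ℝ) ^ k * h : ℝ) : Circ)
    simp only [hd]
    nlinarith
  set e : ℕ → ℝ := fun k => d k + η / 2 + (if m + 1 ≤ k then δ else 0) with he
  have he0 : ∀ k, 0 ≤ e k := by
    intro k
    simp only [he]
    split_ifs with hk
    · have := g0_ge hδ.le (((b : ℝ) ^ k * h : ℝ) : Circ)
      linarith [hdk k]
    · have hk' : k ≤ m := by omega
      have h3 : (b : ℝ) ^ k * h ≤ 1 / 4 := by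
        have : (b : ℝ) ^ k ≤ (b : ℝ) ^ m := pow_le_pow_right₀ hb1.le hk'
        calc (b : ℝ) ^ k * h ≤ (b : ℝ) ^ m * δ := mul_le_mul this hhδ hh0.le (by positivity)
          _ ≤ 1 / 4 := hδ4
      have := g0_nonneg hδ.le hδ' (x := (b : ℝ) ^ k * h) (by positivity) h3
      linarith [hdk k]
  have he1 : (1 - η) * (δ / b) ≤ e 0 := by
    have h1 := (abs_le.mp (hf (h : Circ))).1
    have h2 : ‖(h : Circ)‖ = h := by
      rw [norm_coe_of (by rw [abs_of_pos hh0]; linarith), abs_of_pos hh0]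
    rw [h2, g0_eq hδ.le hδ' hh0.le hhδ] at h1
    have h3 : e 0 = f (h : Circ) - f 0 + η / 2 := by simp [he, hd]
    rw [h3]
    have hη1 : η ≤ 1 := by
      by_contra hcon
      push Not at hcon
      have hpos : 0 < (1 - r)⁻¹ := inv_pos.mpr (by linarith)
      have : δ / b < η * (δ / b + (1 - r)⁻¹) := by nlinarith
      have h5 : δ / (8 * b) = (δ / b) / 8 := by field_simp
      rw [h5] at hη
      linarith
    have := mul_le_mul_of_nonneg_left hh.le (by linarith : 0 ≤ 1 - η)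
    linarith
  have hdB : ∀ k, |d k| ≤ 2 * B := by
    intro k
    have h1 := hB (((b : ℝ) ^ k * h : ℝ) : Circ)
    have h2 := hB 0
    exact (abs_sub _ _).trans (by linarith)
  have hsg : Summable fun k : ℕ => r ^ k := summable_geometric_of_lt_one hr0.le hr1
  have hsd : Summable fun k : ℕ => r ^ k * d k := by
    refine Summable.of_norm_bounded (hsg.mul_right (2 * B)) fun k => ?_
    rw [norm_mul, Real.norm_eq_abs, Real.norm_eq_abs, abs_of_pos (pow_pos hr0 k)]
    exact mul_le_mul_of_nonneg_left (hdB _) (pow_pos hr0 k).le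
  have hsi : Summable fun k : ℕ => r ^ k * (if m + 1 ≤ k then δ else 0) := by
    refine Summable.of_norm_bounded (hsg.mul_right δ) fun k => ?_
    rw [norm_mul, Real.norm_eq_abs, Real.norm_eq_abs, abs_of_pos (pow_pos hr0 k)]
    refine mul_le_mul_of_nonneg_left ?_ (pow_pos hr0 k).le
    split_ifs
    · rw [abs_of_pos hδ]
    · simpa using hδ.le
  have hgeo : ∑' k : ℕ, r ^ k = (1 - r)⁻¹ := tsum_geometric_of_lt_one hr0.le hr1
  have hind : ∑' k : ℕ, r ^ k * (if m + 1 ≤ k then δ else 0) = δ * (r ^ (m + 1) * (1 - r)⁻¹) := by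
    rw [← hsi.sum_add_tsum_nat_add (m + 1)]
    have h1 : ∑ k ∈ Finset.range (m + 1), r ^ k * (if m + 1 ≤ k then δ else 0) = 0 := by
      refine Finset.sum_eq_zero fun k hk => ?_
      rw [if_neg (by have := Finset.mem_range.mp hk; omega), mul_zero]
    have h2 : ∀ k : ℕ, r ^ (k + (m + 1)) * (if m + 1 ≤ k + (m + 1) then δ else 0) =
        δ * r ^ (m + 1) * r ^ k := by
      intro k
      rw [if_pos (by omega), pow_add]
      ring
    simp_rw [h2]
    rw [h1, tsum_mul_left, hgeo]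
    ring
  have hsum : ∑' k : ℕ, r ^ k * e k = ∑' k : ℕ, r ^ k * d k + η / 2 * (1 - r)⁻¹ +
      δ * (r ^ (m + 1) * (1 - r)⁻¹) := by
    rw [← hind, ← hgeo, ← tsum_mul_left, ← Summable.tsum_add hsd (hsg.mul_left _),
      ← Summable.tsum_add (hsd.add (hsg.mul_left _)) hsi]
    refine tsum_congr fun k => ?_
    simp only [he]
    ring
  have hse : Summable fun k : ℕ => r ^ k * e k := by
    have := (hsd.add (hsg.mul_left (η / 2))).add hsi
    refine this.congr fun k => ?_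
    simp only [he]
    ring
  have hge : e 0 ≤ ∑' k : ℕ, r ^ k * e k := by
    have := hse.le_tsum 0 (fun k _ => mul_nonneg (pow_pos hr0 k).le (he0 k))
    simpa using this
  have hW : W b α f h - W b α f 0 = ∑' k : ℕ, r ^ k * d k := by
    rw [W_eq hb, W_eq hb, ← Summable.tsum_sub (W_summable hb h0 hB h) (W_summable hb h0 hB 0)]
    refine tsum_congr fun k => ?_
    simp only [hd, mul_zero, AddCircle.coe_zero]
    ring
  have hinv : 0 < (1 - r)⁻¹ := inv_pos.mpr (by linarith)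
  have h5 : δ / (8 * b) = (δ / b) / 8 := by field_simp
  have h6 : δ * (1 / (4 * b)) = (δ / b) / 4 := by field_simp
  have h7 : δ * (r ^ (m + 1) * (1 - r)⁻¹) ≤ (δ / b) / 4 := by
    rw [← h6]
    exact mul_le_mul_of_nonneg_left hm hδ.le
  have h8 : 0 ≤ η * (1 - r)⁻¹ := mul_nonneg hη0 hinv.le
  rw [h5] at hη
  nlinarith

/-- positivity of the increment to the right of `0`. -/
lemma inc_pos (hb : 2 ≤ b) (h0 : 0 < α) (hB : ∀ x, |f x| ≤ B) {m : ℕ} {δ η : ℝ}
    (hδ : 0 < δ) (hδ4 : (b : ℝ) ^ m * δ ≤ 1 / 4)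
    (hm : ((b : ℝ) ^ (-α)) ^ (m + 1) * (1 - (b : ℝ) ^ (-α))⁻¹ ≤ 1 / (4 * b)) (hη0 : 0 ≤ η)
    (hη : η * (δ / b + (1 - (b : ℝ) ^ (-α))⁻¹) ≤ δ / (8 * b))
    (hf : ∀ x, |f x - f 0 - g0 δ x| ≤ η * ‖x‖) {h : ℝ} (hh : 0 < h) (hhδ : h ≤ δ) :
    W b α f 0 < W b α f h := by
  have hb1 : (1 : ℝ) < b := by exact_mod_cast (by omega : 1 < b)
  have hb0 : (0 : ℝ) < b := by linarith
  have hbm : (1 : ℝ) ≤ (b : ℝ) ^ m := one_le_pow₀ hb1.le
  have hδ' : δ ≤ 1 / 4 := by nlinarith
  have hδb : 0 < δ / b := by positivity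
  have hr0 := r_pos (α := α) hb
  have hr1 := r_lt hb h0
  have hη1 : η ≤ 1 := by
    by_contra hcon
    push Not at hcon
    have hpos : 0 < (1 - (b : ℝ) ^ (-α))⁻¹ := inv_pos.mpr (by linarith)
    have : δ / b < η * (δ / b + (1 - (b : ℝ) ^ (-α))⁻¹) := by nlinarith
    have h5 : δ / (8 * b) = (δ / b) / 8 := by field_simp
    rw [h5] at hη
    linarith
  have key : ∀ n : ℕ, ∀ h : ℝ, 0 < h → h ≤ δ → δ / b < (b : ℝ) ^ n * h →
      W b α f 0 < W b α f h := by
    intro n
    induction n with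
    | zero =>
      intro h hh hhδ hn
      rw [pow_zero, one_mul] at hn
      exact inc_base hb h0 hB hδ hδ4 hm hη0 hη hf hn hhδ
    | succ n ih =>
      intro h hh hhδ hn
      rcases lt_or_ge (δ / b) h with h1 | h1
      · exact inc_base hb h0 hB hδ hδ4 hm hη0 hη hf h1 hhδ
      · have h2 : (b : ℝ) * h ≤ δ := by
          rw [le_div_iff₀ hb0] at h1; linarith
        have h3 := ih (b * h) (by positivity) h2 (by rw [pow_succ] at hn; linarith)
        rw [W_func hb h0 hB h]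
        have h4 : W b α f 0 = f 0 + (b : ℝ) ^ (-α) * W b α f 0 := by
          have := W_func (f := f) hb h0 hB 0
          rw [mul_zero] at this
          simpa using this
        have h5 := (abs_le.mp (hf (h : Circ))).1
        have h6 : ‖(h : Circ)‖ = h := by
          rw [norm_coe_of (by rw [abs_of_pos hh]; linarith), abs_of_pos hh]
        rw [h6, g0_eq hδ.le hδ' hh.le hhδ] at h5
        have h7 := mul_lt_mul_of_pos_left h3 hr0
        have h8 : η * h ≤ 1 * h := mul_le_mul_of_nonneg_right hη1 hh.le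
        rw [h4]
        linarith
  obtain ⟨n, hn⟩ := pow_unbounded_of_one_lt (δ / b / h) hb1
  rw [div_lt_iff₀ hh] at hn
  exact key n h hh hhδ hn

/-- negativity of the increment to the left of `0`. -/
lemma inc_neg (hb : 2 ≤ b) (h0 : 0 < α) (hB : ∀ x, |f x| ≤ B) {m : ℕ} {δ η : ℝ}
    (hδ : 0 < δ) (hδ4 : (b : ℝ) ^ m * δ ≤ 1 / 4)
    (hm : ((b : ℝ) ^ (-α)) ^ (m + 1) * (1 - (b : ℝ) ^ (-α))⁻¹ ≤ 1 / (4 * b)) (hη0 : 0 ≤ η)
    (hη : η * (δ / b + (1 - (b : ℝ) ^ (-α))⁻¹) ≤ δ / (8 * b))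
    (hf : ∀ x, |f x - f 0 - g0 δ x| ≤ η * ‖x‖) {h : ℝ} (hh : 0 < h) (hhδ : h ≤ δ) :
    W b α f (-h) < W b α f 0 := by
  have hB' : ∀ x, |(fun x : Circ => -f (-x)) x| ≤ B := fun x => by
    simp only [abs_neg]; exact hB _
  have hf' : ∀ x, |(fun x : Circ => -f (-x)) x - (fun x : Circ => -f (-x)) 0 - g0 δ x| ≤
      η * ‖x‖ := by
    intro x
    have h1 := hf (-x)
    rw [g0_neg, norm_neg] at h1
    simp only [neg_zero]
    rw [← abs_neg]
    refine le_trans (le_of_eq ?_) h1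
    congr 1
    ring
  have h1 := inc_pos hb h0 hB' hδ hδ4 hm hη0 hη hf' hh hhδ
  have h2 : ∀ x, W b α (fun x : Circ => -f (-x)) x = -W b α f (-x) := by
    intro x
    rw [W_eq hb, W_eq hb, ← tsum_neg]
    refine tsum_congr fun k => ?_
    have e : (((b : ℝ) ^ k * -x : ℝ) : Circ) = -(((b : ℝ) ^ k * x : ℝ) : Circ) := by
      rw [mul_neg, AddCircle.coe_neg]
    rw [e]
    ring
  rw [h2, h2, neg_zero] at h1
  linarith

end series

/-- nonempty open sets are not shy. -/
lemma not_shy_of_open {A U : Set LipSpace} (hU : IsOpen U) (hne : U.Nonempty) (hUA : U ⊆ A) :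
    ¬ Shy A := by
  rintro ⟨μ, B, hB, hAB, ⟨K, hK, hK0, hK1⟩, hμ⟩
  obtain ⟨g, hg⟩ := hne
  obtain ⟨t, ht⟩ := hK.elim_finite_subcover
    (fun x : LipSpace => (fun y => (x - g) + y) '' U) (fun x => by
      exact (Homeomorph.addLeft (x - g)).isOpenMap U hU)
    (fun x _ => mem_iUnion.mpr ⟨x, g, hg, by simp⟩)
  have h0 : μ K = 0 := by
    refine measure_mono_null ht ?_
    refine (measure_biUnion_null_iff t.countable_toSet).mpr ?_
    intro x _
    refine measure_mono_null (image_mono ?_) (hμ (x - g))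
    exact hUA.trans hAB
  exact hK0.ne' h0

/-- **Theorem.** Let `b ≥ 2` and `0 < α < 1`. There is a nonempty open set `U` of `Lip(S¹)` such that
for every `g` in `U` there are a non-vertical direction `θ` and a height `t` with
`m_θ < t < M_θ` for which the slice is a single point and has Hausdorff dimension different from
`1 - α`. Consequently the set of the `g` that are constant or have the property of Q2 is not
prevalent. -/
theorem result (b : ℕ) (hb : 2 ≤ b) (α : ℝ) (h0 : 0 < α) (h1 : α < 1) :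
    (∃ U : Set LipSpace, IsOpen U ∧ U.Nonempty ∧ ∀ g ∈ U,
      (¬ ∃ c : ℝ, ∀ x, g.fn x = c) ∧
      ∃ θ ∈ Ico (0 : ℝ) (2 * Real.pi), Real.sin θ ≠ 0 ∧
      ∃ t ∈ Ioo (mθ b α g.fn θ) (Mθ b α g.fn θ), (∃ p, slice b α g.fn θ t = {p}) ∧
        dimH (slice b α g.fn θ t) ≠ ENNReal.ofReal (1 - α)) ∧
    ¬ Prevalent {g : LipSpace | (∃ c : ℝ, ∀ x, g.fn x = c) ∨ Good2 b α g} := by
  have hb1 : (1 : ℝ) < b := by exact_mod_cast (by omega : 1 < b)
  have hb0 : (0 : ℝ) < b := by linarith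
  have hr0 := r_pos (α := α) hb
  have hr1 := r_lt hb h0
  have hinv : 0 < (1 - (b : ℝ) ^ (-α))⁻¹ := inv_pos.mpr (by linarith)
  -- choice of the parameters
  obtain ⟨m, hm⟩ : ∃ m : ℕ, ((b : ℝ) ^ (-α)) ^ (m + 1) * (1 - (b : ℝ) ^ (-α))⁻¹ ≤
      1 / (4 * b) := by
    obtain ⟨n, hn⟩ := exists_pow_lt_of_lt_one
      (show 0 < 1 / (4 * (b : ℝ)) / (1 - (b : ℝ) ^ (-α))⁻¹ by positivity) hr1
    refine ⟨n, ?_⟩
    rw [lt_div_iff₀ hinv] at hn
    refine le_trans ?_ hn.le
    refine mul_le_mul_of_nonneg_right ?_ hinv.le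
    exact pow_le_pow_of_le_one hr0.le hr1.le (Nat.le_succ n)
  obtain ⟨δ, hδ, hδ4⟩ : ∃ δ : ℝ, 0 < δ ∧ (b : ℝ) ^ m * δ ≤ 1 / 4 := by
    have : (0 : ℝ) < (b : ℝ) ^ m := by positivity
    refine ⟨1 / 4 / (b : ℝ) ^ m, by positivity, ?_⟩
    rw [mul_div_cancel₀ _ this.ne']
  have hbm : (1 : ℝ) ≤ (b : ℝ) ^ m := one_le_pow₀ hb1.le
  have hδ' : δ ≤ 1 / 4 := by nlinarith
  obtain ⟨η, hη0, hη⟩ : ∃ η : ℝ, 0 < η ∧
      η * (δ / b + (1 - (b : ℝ) ^ (-α))⁻¹) ≤ δ / (8 * b) := by
    have : 0 < δ / b + (1 - (b : ℝ) ^ (-α))⁻¹ := by positivity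
    refine ⟨δ / (8 * b) / (δ / b + (1 - (b : ℝ) ^ (-α))⁻¹), by positivity, ?_⟩
    rw [div_mul_cancel₀ _ this.ne']
  set G : LipSpace := ⟨g0 δ, 2, g0_lip δ⟩ with hG
  have hGfn : ∀ x, G.fn x = g0 δ x := fun x => rfl
  have main : ∀ g ∈ Metric.ball G η, (¬ ∃ c : ℝ, ∀ x, g.fn x = c) ∧
      ∃ θ ∈ Ico (0 : ℝ) (2 * Real.pi), Real.sin θ ≠ 0 ∧
      ∃ t ∈ Ioo (mθ b α g.fn θ) (Mθ b α g.fn θ), (∃ p, slice b α g.fn θ t = {p}) ∧
        dimH (slice b α g.fn θ t) ≠ ENNReal.ofReal (1 - α) := by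
    intro g hg
    rw [Metric.mem_ball, dist_eq_norm] at hg
    set p : LipSpace := g - G with hp
    have hpx : ∀ x, p.fn x = g.fn x - g0 δ x := fun x => rfl
    have hplip : ∀ x y : Circ, |p.fn x - p.fn y| ≤ η * dist x y := by
      intro x y
      have h2 := le_ciSup p.bdd2 (x, y)
      have h3 : (⨆ q : Circ × Circ, |p.fn q.1 - p.fn q.2| / dist q.1 q.2) ≤ ‖p‖ := by
        rw [LipSpace.norm_def]
        have : 0 ≤ ⨆ x : Circ, |p.fn x| := Real.iSup_nonneg fun x => abs_nonneg _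
        linarith
      simp only at h2
      rcases (dist_nonneg (x := x) (y := y)).lt_or_eq with h4 | h4
      · rw [← div_le_iff₀ h4]
        linarith
      · have : x = y := dist_eq_zero.mp h4.symm
        rw [this]
        simp
    have hf : ∀ x, |g.fn x - g.fn 0 - g0 δ x| ≤ η * ‖x‖ := by
      intro x
      have h2 := hplip x 0
      rw [hpx, hpx, dist_zero_right] at h2
      have h3 : g0 δ 0 = 0 := by
        have := g0_neg δ 0
        rw [neg_zero] at this
        linarith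
      rw [h3] at h2
      refine le_trans (le_of_eq ?_) h2
      congr 1
      ring
    obtain ⟨B, hB⟩ : ∃ B : ℝ, ∀ x, |g.fn x| ≤ B := by
      obtain ⟨B, hB⟩ := g.bdd1
      exact ⟨B, fun x => hB ⟨x, rfl⟩⟩
    obtain ⟨K, hK⟩ := g.lip
    have hpos : ∀ h : ℝ, 0 < h → h ≤ δ → W b α g.fn 0 < W b α g.fn h := fun h hh hhδ =>
      inc_pos hb h0 hB hδ hδ4 hm hη0.le hη hf hh hhδ
    have hneg : ∀ h : ℝ, 0 < h → h ≤ δ → W b α g.fn (-h) < W b α g.fn 0 := fun h hh hhδ =>
      inc_neg hb h0 hB hδ hδ4 hm hη0.le hη hf hh hhδ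
    refine ⟨?_, ?_⟩
    · rintro ⟨c, hc⟩
      have h2 := hpos δ hδ le_rfl
      have h3 : W b α g.fn 0 = W b α g.fn δ := by
        unfold W
        simp only [hc]
      linarith
    -- increments at `1/b`
    set w := W b α g.fn with hw
    set C : ℝ := B * (1 - (b : ℝ) ^ (-α))⁻¹ with hC
    have hwC : ∀ x, |w x| ≤ C := fun x => W_bound hb h0 hB x
    have hC0 : 0 ≤ C := (abs_nonneg _).trans (hwC 0)
    have hloc : ∀ h : ℝ, w (1 / b + h) - w (1 / b) =
        (g.fn ((1 / b + h : ℝ) : Circ) - g.fn ((1 / b : ℝ) : Circ)) +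
          (b : ℝ) ^ (-α) * (w (b * h) - w 0) := by
      intro h
      have e1 := W_func (f := g.fn) hb h0 hB (1 / b + h)
      have e2 := W_func (f := g.fn) hb h0 hB (1 / b)
      have e3 : (b : ℝ) * (1 / b + h) = b * h + 1 := by field_simp; ring
      have e4 : (b : ℝ) * (1 / b) = 0 + 1 := by field_simp; ring
      rw [e3, W_period hb] at e1
      rw [e4, W_period hb] at e2
      rw [hw, e1, e2]
      ring
    have hgl : ∀ h : ℝ, |g.fn ((1 / b + h : ℝ) : Circ) - g.fn ((1 / b : ℝ) : Circ)| ≤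
        K * |h| := by
      intro h
      have h2 := hK.dist_le_mul ((1 / b + h : ℝ) : Circ) ((1 / b : ℝ) : Circ)
      rw [Real.dist_eq, dist_eq_norm, ← AddCircle.coe_sub] at h2
      have e : (1 / (b : ℝ) + h) - 1 / b = h := by ring
      rw [e] at h2
      refine h2.trans (mul_le_mul_of_nonneg_left ?_ K.2)
      exact QuotientAddGroup.norm_mk_le_norm
    -- choice of `e`
    obtain ⟨e, he0, heK, heC⟩ : ∃ e : ℝ, 0 < e ∧ e * K ≤ 1 ∧ e * (2 * C) ≤ δ / b := by
      have hK0 : (0 : ℝ) ≤ K := K.2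
      have hδb : 0 < δ / b := by positivity
      refine ⟨min (1 / (K + 1)) (δ / b / (2 * C + 1)), by positivity, ?_, ?_⟩
      · calc min (1 / ((K : ℝ) + 1)) (δ / b / (2 * C + 1)) * K ≤ 1 / (K + 1) * K :=
            mul_le_mul_of_nonneg_right (min_le_left _ _) hK0
          _ ≤ 1 := by rw [div_mul_eq_mul_div, div_le_one (by positivity)]; linarith
      · calc min (1 / ((K : ℝ) + 1)) (δ / b / (2 * C + 1)) * (2 * C) ≤
            δ / b / (2 * C + 1) * (2 * C) :=
            mul_le_mul_of_nonneg_right (min_le_right _ _) (by positivity)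
          _ ≤ δ / b := by
            rw [div_mul_eq_mul_div, div_le_iff₀ (by positivity)]
            nlinarith
    have hright : ∀ h : ℝ, 0 < h → 1 / b + e * w (1 / b) < (1 / b + h) + e * w (1 / b + h) := by
      intro h hh
      rcases le_or_gt h (δ / b) with h2 | h2
      · have h3 := hpos (b * h) (by positivity) (by rw [le_div_iff₀ hb0] at h2; linarith)
        have h4 := hloc h
        have h5 := (abs_le.mp (hgl h)).1
        rw [abs_of_pos hh] at h5
        have h6 : 0 < (b : ℝ) ^ (-α) * (w (b * h) - w 0) := mul_pos hr0 (by linarith)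
        have h7 : e * (w (1 / b + h) - w (1 / b)) > e * (-(K * h)) :=
          mul_lt_mul_of_pos_left (by linarith) he0
        have h8 : e * K * h ≤ 1 * h := mul_le_mul_of_nonneg_right heK hh.le
        linarith
      · have h3 := abs_le.mp (hwC (1 / b + h))
        have h4 := abs_le.mp (hwC (1 / b))
        have h5 : e * (w (1 / b) - w (1 / b + h)) ≤ e * (2 * C) :=
          mul_le_mul_of_nonneg_left (by linarith) he0.le
        linarith
    have hleft : ∀ h : ℝ, 0 < h → (1 / b - h) + e * w (1 / b - h) < 1 / b + e * w (1 / b) := by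
      intro h hh
      rcases le_or_gt h (δ / b) with h2 | h2
      · have h3 := hneg (b * h) (by positivity) (by rw [le_div_iff₀ hb0] at h2; linarith)
        have h4 := hloc (-h)
        have h5 := (abs_le.mp (hgl (-h))).2
        rw [abs_neg, abs_of_pos hh] at h5
        rw [mul_neg] at h4
        have h6 : 0 < (b : ℝ) ^ (-α) * (w 0 - w (-(b * h))) := mul_pos hr0 (by linarith)
        have h7 : e * (w (1 / b + -h) - w (1 / b)) < e * (K * h) :=
          mul_lt_mul_of_pos_left (by linarith) he0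
        have h8 : e * K * h ≤ 1 * h := mul_le_mul_of_nonneg_right heK hh.le
        rw [← sub_eq_add_neg] at h7
        linarith
      · have h3 := abs_le.mp (hwC (1 / b - h))
        have h4 := abs_le.mp (hwC (1 / b))
        have h5 : e * (w (1 / b - h) - w (1 / b)) ≤ e * (2 * C) :=
          mul_le_mul_of_nonneg_left (by linarith) he0.le
        linarith
    have hbin0 : 0 < 1 / (b : ℝ) := by positivity
    have hbin1 : 1 / (b : ℝ) < 1 := by rw [div_lt_one hb0]; exact hb1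
    have hcont : Continuous w := W_cont hb h0 g
    have hθ0 : 0 < Real.arctan e := by
      rw [← Real.arctan_zero]; exact Real.arctan_strictMono he0
    have hθ1 : Real.arctan e < Real.pi / 2 := Real.arctan_lt_pi_div_two e
    have hcos : 0 < Real.cos (Real.arctan e) := Real.cos_arctan_pos e
    have hsin : Real.sin (Real.arctan e) = Real.cos (Real.arctan e) * e := by
      have := Real.tan_arctan e
      rw [Real.tan_eq_sin_div_cos, div_eq_iff hcos.ne'] at this
      rw [this, mul_comm]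
    have hsinpos : 0 < Real.sin (Real.arctan e) :=
      Real.sin_pos_of_pos_of_lt_pi hθ0 (by linarith [Real.pi_pos])
    have hP : ∀ x : ℝ, P (Real.arctan e) !₂[x, w x] =
        Real.cos (Real.arctan e) * (x + e * w x) := by
      intro x
      unfold P
      rw [hsin]
      simp
      ring
    have hcomp : IsCompact (P (Real.arctan e) '' graph b α g.fn) := by
      have : P (Real.arctan e) '' graph b α g.fn =
          (fun x => Real.cos (Real.arctan e) * (x + e * w x)) '' Icc 0 1 := by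
        unfold graph
        rw [image_image]
        exact image_congr fun x _ => hP x
      rw [this]
      apply isCompact_Icc.image
      exact continuous_const.mul (continuous_id.add (continuous_const.mul hcont))
    have hlt : ∀ x ∈ Icc (0 : ℝ) 1, x < 1 / b → x + e * w x < 1 / b + e * w (1 / b) := by
      intro x _ hx
      have := hleft (1 / b - x) (by linarith)
      have e1 : 1 / (b : ℝ) - (1 / b - x) = x := by ring
      rwa [e1] at this
    have hgt : ∀ x ∈ Icc (0 : ℝ) 1, 1 / b < x → 1 / b + e * w (1 / b) < x + e * w x := by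
      intro x _ hx
      have := hright (x - 1 / b) (by linarith)
      have e1 : 1 / (b : ℝ) + (x - 1 / b) = x := by ring
      rwa [e1] at this
    have hslice : slice b α g.fn (Real.arctan e)
        (Real.cos (Real.arctan e) * (1 / b + e * w (1 / b))) = {!₂[1 / (b : ℝ), w (1 / b)]} := by
      ext q
      constructor
      · rintro ⟨⟨x, hx, rfl⟩, hq⟩
        simp only [mem_preimage, mem_singleton_iff] at hq ⊢
        rw [hP] at hq
        have hq' := mul_left_cancel₀ hcos.ne' hq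
        rcases lt_trichotomy x (1 / b) with h2 | h2 | h2
        · exact absurd hq' (hlt x hx h2).ne
        · rw [h2]
        · exact absurd hq' (hgt x hx h2).ne'
      · rintro rfl
        refine ⟨⟨1 / b, ⟨hbin0.le, hbin1.le⟩, rfl⟩, ?_⟩
        simp only [mem_preimage, mem_singleton_iff]
        exact hP _
    refine ⟨Real.arctan e, ⟨hθ0.le, by linarith [Real.pi_pos]⟩, hsinpos.ne',
      Real.cos (Real.arctan e) * (1 / b + e * w (1 / b)), ⟨?_, ?_⟩, ⟨_, hslice⟩, ?_⟩
    · refine lt_of_le_of_lt (csInf_le hcomp.bddBelow ⟨_, ⟨0, ⟨le_rfl, zero_le_one⟩, rfl⟩, rfl⟩) ?_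
      rw [hP]
      exact mul_lt_mul_of_pos_left (hlt 0 ⟨le_rfl, zero_le_one⟩ hbin0) hcos
    · refine lt_of_lt_of_le ?_ (le_csSup hcomp.bddAbove ⟨_, ⟨1, ⟨zero_le_one, le_rfl⟩, rfl⟩, rfl⟩)
      rw [hP]
      exact mul_lt_mul_of_pos_left (hgt 1 ⟨zero_le_one, le_rfl⟩ hbin1) hcos
    · rw [hslice, dimH_singleton]
      have : 0 < ENNReal.ofReal (1 - α) := ENNReal.ofReal_pos.mpr (by linarith)
      exact this.ne
  refine ⟨⟨Metric.ball G η, Metric.isOpen_ball, ⟨G, Metric.mem_ball_self hη0⟩, main⟩, ?_⟩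
  refine not_shy_of_open (U := Metric.ball G η) Metric.isOpen_ball
    ⟨G, Metric.mem_ball_self hη0⟩ ?_
  intro g hg hcon
  obtain ⟨hnc, θ, hθ, hs, t, ht, -, hd⟩ := main g hg
  rcases hcon with hcon | hcon
  · exact hnc hcon
  · exact hd (hcon θ hθ hs t ht)

end Pool.Agent.Results.MP_60983f_an.InteriorSlices
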